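import Pool.Agent.Helper15.UL.GoalsA

/-! # MP_57a173_lc: PD, pure decision of `k` bits on all cells -/

noncomputable section

namespace UL.PkPD

open UL

variable {I : Type} [LinearOrder I]

/-- The set of cells of a level with finite support is finite. -/
theorem cell_finite {q : I → ℕ} (hq : Fin0 q) : (Cell q).Finite := by
  classical
  haveI : Finite {ξ | q ξ ≠ 0} := hq.to_subtype
  let N : ∀ _ : {ξ | q ξ ≠ 0}, Type := fun ξ => {s : Str // s.length = q ξ.1 - 1}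
  haveI hN : ∀ ξ, Finite (N ξ) := fun ξ => by
    show Finite (List.Vector Bool (q ξ.1 - 1))
    infer_instance
  haveI : Finite (∀ ξ, N ξ) := Pi.finite
  let g : Cell q → ∀ ξ, N ξ := fun τ ξ => ⟨τ.1 ξ.1, τ.2 ξ.1⟩
  have hg : Function.Injective g := by
    intro τ τ' h
    apply Subtype.ext
    funext ξ
    by_cases hξ : q ξ = 0
    · have h1 : (τ.1 ξ).length = 0 := by rw [τ.2 ξ, hξ]
      have h2 : (τ'.1 ξ).length = 0 := by rw [τ'.2 ξ, hξ]
      rw [List.length_eq_zero_iff.1 h1, List.length_eq_zero_iff.1 h2]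
    · exact congrArg Subtype.val (congrFun h ⟨ξ, hξ⟩)
  exact Finite.of_injective g hg

theorem res_ext {x y : ℕ → Bool} {k : ℕ} (h : ∀ i, i < k → x i = y i) : res x k = res y k := by
  unfold res
  apply List.map_congr_left
  intro i hi
  exact h i (List.mem_range.1 hi)

theorem thm : UL.G_PD0 → UL.G_LOC → UL.G_PD := by
  intro hPD0 hLOC I _ _ hF q y k hq hy
  -- one bit, one cell
  have one : ∀ χ : Pt I → Pt I, Pure q χ → ∀ τ ∈ Cell q, ∀ i : ℕ,
      ∃ χ', Pure q χ' ∧ ∃ b, ∀ z ∈ B τ, y (χ (χ' z)) i = b := by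
    intro χ hχ τ hτ i
    have hS := Cell.fin_Sp hq hτ
    have hc : LC Set.univ (fun z => y (χ (J τ z)) i) :=
      (hy i).comp isLowerSet_univ (hχ.isM.comp (J_isM hS))
    have hp : Fin0 (fun ξ => min (q ξ) 1) := hq.subset fun ξ hξ => by
      simp only [Set.mem_setOf_eq] at hξ ⊢
      omega
    obtain ⟨χ₁, h1, b, hb⟩ := hPD0 I hF (fun ξ => min (q ξ) 1) _ hp
      (fun ξ => min_le_right _ _) hc
    obtain ⟨χ', h2, -, h3, -⟩ := hLOC I ∅ (fun ξ => min (q ξ) 1) q τ χ₁ isLowerSet_empty hq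
      (fun ξ hξ => absurd hξ (Set.notMem_empty ξ))
      (fun ξ hξ => by
        have : 1 ≤ q ξ := Nat.one_le_iff_ne_zero.2 hξ
        exact min_eq_right this) hτ h1
    refine ⟨χ', ?_, b, fun z hz => ?_⟩
    · have e : (fun ξ => if q ξ = 0 then min (q ξ) 1 else q ξ) = q := by
        funext ξ
        split_ifs with h
        · simp [h]
        · rfl
      rwa [e] at h3
    · obtain ⟨w, rfl⟩ := mem_B_iff.1 hz
      have h4 := congrFun h2 w
      simp only [Function.comp_apply] at h4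
      rw [h4]
      exact hb w
  -- finite lists of pairs
  have lst : ∀ l : List (ℕ × Cell q), ∃ χ, Pure q χ ∧ ∀ p ∈ l, ∃ b, ∀ z ∈ B p.2.1,
      y (χ z) p.1 = b := by
    intro l
    induction l with
    | nil => exact ⟨id, Pure.id' q, fun p hp => absurd hp (List.not_mem_nil)⟩
    | cons p l ih =>
      obtain ⟨χ, hχ, h⟩ := ih
      obtain ⟨χ', hχ', b, hb⟩ := one χ hχ p.2.1 p.2.2 p.1
      refine ⟨χ ∘ χ', hχ.comp hχ', fun p' hp' => ?_⟩
      rcases List.mem_cons.1 hp' with rfl | hp'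
      · exact ⟨b, hb⟩
      · obtain ⟨b', hb'⟩ := h p' hp'
        exact ⟨b', fun z hz => hb' _ (hχ'.cell p'.2.2 hz)⟩
  haveI : Finite (Cell q) := (cell_finite hq).to_subtype
  haveI : Fintype (Cell q) := Fintype.ofFinite _
  obtain ⟨χ, hχ, h⟩ := lst ((Finset.range k ×ˢ (Finset.univ : Finset (Cell q))).toList)
  refine ⟨χ, hχ, fun τ hτ => ?_⟩
  have h' : ∀ i, i < k → ∃ b, ∀ z ∈ B τ, y (χ z) i = b := fun i hi =>
    h (i, ⟨τ, hτ⟩) (by simp [hi])
  by_cases hB : (B τ).Nonempty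
  · obtain ⟨z₀, hz₀⟩ := hB
    refine ⟨res (y (χ z₀)) k, fun z hz => res_ext fun i hi => ?_⟩
    obtain ⟨b, hb⟩ := h' i hi
    rw [hb z hz, hb z₀ hz₀]
  · exact ⟨[], fun z hz => absurd ⟨z, hz⟩ hB⟩

end UL.PkPD
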